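import Pool.Agent.Y522.FA.Stm

/-! # Lipschitz functions on the surface (project FA, helper522) -/

set_option autoImplicit false

open Set Filter Topology Metric Function MeasureTheory
open scoped NNReal

noncomputable section

namespace Pool.Agent.Y721.FA

open Pool.Agent.Y522.FA

theorem sub_T {O : Set E2} : O ∩ {z : E2 | 0 < z 0} ⊆ O ∩ {z : E2 | 0 ≤ z 0} :=
  inter_subset_inter_right _ fun z hz => (show (0 : ℝ) ≤ z 0 from
    le_of_lt (show (0 : ℝ) < z 0 from hz))

theorem dist_le {M : Type} [MetricSpace M] [MeasurableSpace M] {μ : Measure M} {b : Circ → M}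
    (S : Surf M μ b) {F : M → ℝ} {K : ℝ≥0} (hF : LipschitzWith K F) (i : Fin S.N) {z : E2}
    (hz : z ∈ S.T i) {ε : ℝ} (hε : 0 < ε) : ∃ δ : ℝ, 0 < δ ∧
      ∀ w ∈ S.T i, ∀ w' ∈ S.T i, ‖w - z‖ < δ → ‖w' - z‖ < δ →
      |F (S.ψ i w) - F (S.ψ i w')| ≤ K * (‖S.A i z (w' - w)‖ + ε * ‖w' - w‖) := by
  obtain ⟨δ, hδ, h⟩ := S.dst i z hz ε hε
  refine ⟨δ, hδ, fun w hw w' hw' h1 h2 => ?_⟩
  have h3 := hF.dist_le_mul (S.ψ i w) (S.ψ i w')
  rw [Real.dist_eq] at h3
  exact h3.trans (mul_le_mul_of_nonneg_left (h w hw w' hw' h1 h2) K.2)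

/-- **Lipschitz functions in charts** -/
theorem stLip : StLip := by
  intro M _ _ _ μ b S F K hF
  refine ⟨fun i z hz => ?_, fun x hx i hxi v => ?_⟩
  · obtain ⟨δ, hδ, h⟩ := dist_le S hF i hz one_pos
    refine ⟨K * (‖S.A i z‖₊ + 1), δ, hδ, ?_⟩
    apply LipschitzOnWith.of_dist_le_mul
    rintro w ⟨hw, hwb⟩ w' ⟨hw', hwb'⟩
    rw [mem_ball, dist_eq_norm] at hwb hwb'
    have h1 := h w hw w' hw' hwb hwb'
    have h2 : ‖S.A i z (w' - w)‖ ≤ ‖S.A i z‖ * ‖w' - w‖ := (S.A i z).le_opNorm _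
    have h3 : dist w w' = ‖w' - w‖ := by rw [dist_comm, dist_eq_norm]
    rw [Real.dist_eq, h3]
    refine h1.trans ?_
    push_cast
    rw [mul_assoc]
    apply mul_le_mul_of_nonneg_left _ K.2
    rw [add_mul]
    exact add_le_add h2 le_rfl
  · obtain ⟨hpos, hdif⟩ := hx i hxi
    have hz : S.φ i x ∈ S.T i := ⟨x, hxi, rfl⟩
    obtain ⟨O, hO, hT⟩ := S.openT i
    have hT' : S.T i = O ∩ {z | 0 ≤ z 0} := hT
    -- the line stays in the chart
    have hnear : ∀ᶠ t : ℝ in 𝓝 0, S.φ i x + t • v ∈ S.T i := by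
      have hG : IsOpen (O ∩ {z : E2 | 0 < z 0}) :=
        hO.inter (isOpen_lt continuous_const (by fun_prop))
      have hzG : S.φ i x + (0 : ℝ) • v ∈ O ∩ {z : E2 | 0 < z 0} := by
        rw [zero_smul, add_zero]
        rw [hT'] at hz
        exact ⟨hz.1, hpos⟩
      have hc : Continuous (fun t : ℝ => S.φ i x + t • v) := by fun_prop
      have h1 := hc.continuousAt.preimage_mem_nhds (hG.mem_nhds hzG)
      filter_upwards [h1] with t ht
      rw [hT']
      exact sub_T ht
    have hline : HasDerivAt (fun t : ℝ => F (S.ψ i (S.φ i x + t • v))) (S.dc i F x v) 0 := by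
      have h1 := hdif.hasFDerivAt
      have h2 := h1.hasLineDerivAt v
      exact h2
    rw [hasDerivAt_iff_tendsto_slope_zero] at hline
    have key : ∀ ε : ℝ, 0 < ε → |S.dc i F x v| ≤ K * (‖S.A i (S.φ i x) v‖ + ε * ‖v‖) := by
      intro ε hε
      obtain ⟨δ, hδ, h⟩ := dist_le S hF i hz hε
      refine le_of_tendsto hline.abs ?_
      have hsmall : ∀ᶠ t : ℝ in 𝓝 0, ‖t • v‖ < δ := by
        have hc : Continuous (fun t : ℝ => ‖t • v‖) := by fun_prop
        have h0 : (fun t : ℝ => ‖t • v‖) 0 < δ := by simpa using hδ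
        exact hc.continuousAt.eventually_lt continuousAt_const h0
      have hev : ∀ᶠ t : ℝ in 𝓝[≠] 0, S.φ i x + t • v ∈ S.T i ∧ ‖t • v‖ < δ ∧ t ≠ 0 := by
        filter_upwards [nhdsWithin_le_nhds hnear, nhdsWithin_le_nhds hsmall,
          self_mem_nhdsWithin] with t h1 h2 h3
        exact ⟨h1, h2, h3⟩
      filter_upwards [hev] with t ⟨ht1, ht2, ht3⟩
      have h1 := h _ ht1 _ hz (by rw [add_sub_cancel_left]; exact ht2) (by rw [sub_self, norm_zero]; exact hδ)
      have e1 : S.φ i x - (S.φ i x + t • v) = -(t • v) := by abel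
      rw [e1, map_neg, norm_neg, norm_neg, map_smul, norm_smul, norm_smul] at h1
      simp only [zero_add, zero_smul, add_zero]
      rw [smul_eq_mul, abs_mul, abs_inv]
      have ht4 : 0 < |t| := abs_pos.mpr ht3
      rw [inv_mul_le_iff₀ ht4]
      refine h1.trans (le_of_eq ?_)
      rw [Real.norm_eq_abs]
      ring
    by_cases hv : ‖v‖ = 0
    · have := key 1 one_pos
      rw [hv, mul_zero, add_zero] at this
      exact this
    · have hv' : 0 < ‖v‖ := lt_of_le_of_ne (norm_nonneg v) (Ne.symm hv)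
      rw [mul_comm]
      apply le_of_forall_pos_le_add
      intro η hη
      have h1 := key (η / ((K + 1) * ‖v‖)) (by positivity)
      refine h1.trans ?_
      have e2 : η / ((K + 1) * ‖v‖) * ‖v‖ = η / (K + 1) := by
        field_simp
      rw [e2, mul_add, mul_comm (K : ℝ) ‖_‖]
      apply add_le_add le_rfl
      rw [mul_div_assoc', div_le_iff₀ (by positivity)]
      nlinarith [K.2]

/-- **Rademacher's theorem on the surface** -/
theorem stRad (hA : StAe) : StRad := by
  intro M _ _ _ μ b S F K hF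
  have hall : ∀ i, ∀ᵐ x ∂μ, x ∈ S.U i →
      (0 < (S.φ i x) 0 ∧ DifferentiableAt ℝ (fun z => F (S.ψ i z)) (S.φ i x)) := by
    intro i
    refine hA M μ b S i (fun z => 0 < z 0 ∧ DifferentiableAt ℝ (fun z => F (S.ψ i z)) z) ?_
    obtain ⟨O, hO, hT⟩ := S.openT i
    have hT' : S.T i = O ∩ {z | 0 ≤ z 0} := hT
    have hline : ∀ᵐ z : E2, z 0 ≠ 0 := by
      obtain ⟨pr, hpr⟩ : ∃ pr : E2 →L[ℝ] ℝ, ∀ z, pr z = z 0 :=
        ⟨EuclideanSpace.proj (0 : Fin 2), fun z => rfl⟩
      have h1 : (volume : Measure E2) (LinearMap.ker pr.toLinearMap : Submodule ℝ E2) = 0 := by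
        apply Measure.addHaar_submodule
        intro htop
        have h2 : (bv 0 : E2) ∈ (LinearMap.ker pr.toLinearMap : Submodule ℝ E2) := by
          rw [htop]; exact Submodule.mem_top
        rw [LinearMap.mem_ker] at h2
        have h3 : pr (bv 0) = 1 := by rw [hpr]; simp [bv]
        have h4 : pr (bv 0) = 0 := h2
        rw [h3] at h4
        exact one_ne_zero h4
      rw [ae_iff]
      refine measure_mono_null ?_ h1
      intro z hz
      simp only [ne_eq, not_not] at hz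
      have hz' : z 0 = 0 := hz
      have : pr z = 0 := by rw [hpr]; exact hz'
      exact this
    have hG : IsOpen (O ∩ {z : E2 | 0 < z 0}) :=
      hO.inter (isOpen_lt continuous_const (by fun_prop))
    have hdiff : (volume : Measure E2) {z : E2 | z ∈ O ∩ {z : E2 | 0 < z 0} ∧
        ¬ DifferentiableAt ℝ (fun z => F (S.ψ i z)) z} = 0 := by
      apply measure_null_of_locally_null
      rintro z ⟨hz, -⟩
      have hzT : z ∈ S.T i := by rw [hT']; exact sub_T hz
      obtain ⟨C, δ, hδ, hL⟩ := (stLip M μ b S F K hF).1 i z hzT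
      obtain ⟨r, hr, hball⟩ := Metric.isOpen_iff.mp hG z hz
      have hL' : LipschitzOnWith C (fun z => F (S.ψ i z)) (ball z (min r δ)) := by
        refine hL.mono ?_
        intro w hw
        have hw1 : w ∈ O ∩ {z : E2 | 0 < z 0} := hball (ball_subset_ball (min_le_left _ _) hw)
        refine ⟨?_, ball_subset_ball (min_le_right _ _) hw⟩
        rw [hT']
        exact sub_T hw1
      have hae := hL'.ae_differentiableWithinAt_of_mem (μ := (volume : Measure E2))
      rw [ae_iff] at hae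
      refine ⟨{z : E2 | z ∈ O ∩ {z : E2 | 0 < z 0} ∧
        ¬ DifferentiableAt ℝ (fun z => F (S.ψ i z)) z} ∩ ball z (min r δ),
        inter_mem_nhdsWithin _ (ball_mem_nhds z (lt_min hr hδ)), ?_⟩
      refine measure_mono_null ?_ hae
      rintro w ⟨⟨-, hw2⟩, hw3⟩ hcon
      exact hw2 ((hcon hw3).differentiableAt (isOpen_ball.mem_nhds hw3))
    have hdiff' : ∀ᵐ z : E2, z ∈ O ∩ {z : E2 | 0 < z 0} →
        DifferentiableAt ℝ (fun z => F (S.ψ i z)) z := by
      rw [ae_iff]
      refine measure_mono_null ?_ hdiff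
      intro z hz
      simp only [mem_ofPred_eq, Classical.not_imp] at hz
      exact hz
    filter_upwards [hline, hdiff'] with z h1 h2 hz
    rw [hT'] at hz
    have h3 : 0 < z 0 := lt_of_le_of_ne hz.2 (Ne.symm h1)
    exact ⟨h3, h2 ⟨hz.1, h3⟩⟩
  rw [← ae_all_iff] at hall
  filter_upwards [hall] with x hx i hi
  exact hx i hi

end Pool.Agent.Y721.FA
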